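import Pool.Agent.N869.GK.L.Stm

/-!
# GK/ALTR (helper401): the rank of an alternating form over the field with two elements is even
-/

set_option autoImplicit false

namespace Pool.Agent.N401.GK

theorem add_self' {K : Type} [AddCommGroup K] [Module (ZMod 2) K] (v : K) : v + v = 0 := by
  have h : ((1 : ZMod 2) + 1) • v = v + v := by rw [add_smul, one_smul]
  rw [← h]
  have h2 : (1 : ZMod 2) + 1 = 0 := by decide
  rw [h2, zero_smul]

theorem aux : ∀ (m : ℕ) (K : Type) [AddCommGroup K] [Module (ZMod 2) K] [Finite K]
    (f : K →ₗ[ZMod 2] K →ₗ[ZMod 2] ZMod 2), (∀ x, f x x = 0) → Nat.card K = m →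
    ∃ n : ℕ, Nat.card K = Nat.card {x : K // ∀ y, f x y = 0} * 4 ^ n := by
  intro m
  induction m using Nat.strong_induction_on with
  | _ m ih =>
    intro K _ _ _ f hf hm
    by_cases h0 : ∀ x y, f x y = 0
    · refine ⟨0, ?_⟩
      rw [pow_zero, mul_one]
      exact Nat.card_congr (Equiv.subtypeUnivEquiv (fun x => h0 x)).symm
    · push Not at h0
      obtain ⟨x, y, hxy⟩ := h0
      have hz : ∀ a : ZMod 2, a ≠ 0 → a = 1 := by decide
      have hxy1 : f x y = 1 := hz _ hxy
      have hzz : ∀ a : ZMod 2, a + a = 0 := by decide
      have hsym : ∀ a b, f a b = f b a := by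
        intro a b
        have h1 := hf (a + b)
        rw [LinearMap.map_add₂, map_add, map_add, hf a, hf b, zero_add, add_zero] at h1
        have h2 : ∀ c d : ZMod 2, c + d = 0 → c = d := by decide
        exact h2 _ _ h1
      have hyx1 : f y x = 1 := by rw [hsym, hxy1]
      let K' : Submodule (ZMod 2) K := LinearMap.ker (f x) ⊓ LinearMap.ker (f y)
      have hK' : ∀ z : K, z ∈ K' ↔ f x z = 0 ∧ f y z = 0 := by
        intro z
        exact Iff.rfl
      let f' : K' →ₗ[ZMod 2] K' →ₗ[ZMod 2] ZMod 2 := f.domRestrict₁₂ K' K'
      have hf' : ∀ a b : K', f' a b = f (a : K) (b : K) := fun a b => rfl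
      have hproj : ∀ z : K, z + f y z • x + f x z • y ∈ K' := by
        intro z
        rw [hK']
        constructor
        · rw [map_add, map_add, map_smul, map_smul, hf x, hxy1, smul_zero, add_zero, smul_eq_mul,
            mul_one, hzz]
        · rw [map_add, map_add, map_smul, map_smul, hf y, hyx1, smul_zero, add_zero, smul_eq_mul,
            mul_one, hzz]
      let E : K ≃ (ZMod 2 × ZMod 2) × K' :=
        { toFun := fun z => ((f x z, f y z), ⟨z + f y z • x + f x z • y, hproj z⟩)
          invFun := fun p => (p.2 : K) + p.1.2 • x + p.1.1 • y
          left_inv := by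
            intro z
            show z + f y z • x + f x z • y + f y z • x + f x z • y = z
            have h1 := add_self' (f y z • x)
            have h2 := add_self' (f x z • y)
            calc z + f y z • x + f x z • y + f y z • x + f x z • y
                = z + (f y z • x + f y z • x) + (f x z • y + f x z • y) := by abel
              _ = z := by rw [h1, h2, add_zero, add_zero]
          right_inv := by
            rintro ⟨⟨a, b⟩, w⟩
            have hw := (hK' w).1 w.2
            have e1 : f x ((w : K) + b • x + a • y) = a := by
              rw [map_add, map_add, map_smul, map_smul, hf x, hxy1, hw.1, smul_zero, add_zero,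
                zero_add, smul_eq_mul, mul_one]
            have e2 : f y ((w : K) + b • x + a • y) = b := by
              rw [map_add, map_add, map_smul, map_smul, hf y, hyx1, hw.2, smul_zero, add_zero,
                zero_add, smul_eq_mul, mul_one]
            apply Prod.ext
            · exact Prod.ext e1 e2
            · apply Subtype.ext
              show (w : K) + b • x + a • y + f y ((w : K) + b • x + a • y) • x +
                f x ((w : K) + b • x + a • y) • y = w
              rw [e1, e2]
              have h1 := add_self' (b • x)
              have h2 := add_self' (a • y)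
              calc (w : K) + b • x + a • y + b • x + a • y
                  = w + (b • x + b • x) + (a • y + a • y) := by abel
                _ = w := by rw [h1, h2, add_zero, add_zero] }
      have hcard : Nat.card K = 4 * Nat.card K' := by
        rw [Nat.card_congr E, Nat.card_prod, Nat.card_prod, Nat.card_zmod]
      have hpos : 0 < Nat.card K' := Nat.card_pos
      have hlt : Nat.card K' < m := by omega
      obtain ⟨n, hn⟩ := ih (Nat.card K') hlt K' f' (fun a => by rw [hf']; exact hf a) rfl
      have hrad : Nat.card {a : K // ∀ b, f a b = 0} = Nat.card {a : K' // ∀ b, f' a b = 0} := by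
        refine Nat.card_congr
          { toFun := fun a => ⟨⟨a.1, (hK' a.1).2 ⟨by rw [hsym]; exact a.2 x,
              by rw [hsym]; exact a.2 y⟩⟩, fun b => a.2 b⟩
            invFun := fun a => ⟨a.1.1, ?_⟩
            left_inv := fun a => rfl
            right_inv := fun a => rfl }
        intro z
        have h1 : z = (z + f y z • x + f x z • y) + f y z • x + f x z • y := by
          have h1 := add_self' (f y z • x)
          have h2 := add_self' (f x z • y)
          calc z = z + (f y z • x + f y z • x) + (f x z • y + f x z • y) := by
                rw [h1, h2, add_zero, add_zero]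
            _ = _ := by abel
        have h2 := a.2 ⟨z + f y z • x + f x z • y, hproj z⟩
        have h3 := (hK' a.1).1 a.1.2
        rw [hf'] at h2
        rw [h1, map_add, map_add, map_smul, map_smul, hsym _ x, hsym _ y, h3.1, h3.2, smul_zero,
          smul_zero, add_zero, add_zero]
        exact h2
      refine ⟨n + 1, ?_⟩
      rw [hcard, hrad, hn, pow_succ]
      ring

theorem t_ALTR : Pool.Agent.N869.GK.S_ALTR := by
  intro K _ _ _ f hf
  exact aux (Nat.card K) K f hf rfl

end Pool.Agent.N401.GK
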