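import Pool.Agent.N869.GK.StmX
import Pool.Agent.N803.GK.EXT

/-!
# Project GK (helper869), part X-MAXW (helper401)

A totally singular subgroup of order at least `4 ^ r` is maximal.
-/

set_option autoImplicit false

namespace Pool.Agent.N401.GK.MAXW

open Pool.Agent.N869.GK Pool.Agent.N803.GK.EXT

theorem fr_Hr (r : ℕ) : Module.finrank (ZMod 2) (Hr r) = 4 * r := by
  rw [Module.finrank_prod, Module.finrank_pi_fintype]
  simp [Module.finrank_fintype_fun_eq_card]
  ring

theorem t_MAXW : Pool.Agent.N869.GK.X.S_MAXW := by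
  intro r D hq hc Y hY
  set S : Submodule (ZMod 2) (Hr r) := AddSubgroup.toZModSubmodule 2 D.W with hS
  have hSS : S ≤ (BB D).orthogonal S := by
    intro X hX
    rw [mem_orth]
    intro X' hX'
    unfold bS
    rw [hq _ (S.add_mem hX' hX), hq X' hX', hq X hX]
    rfl
  have h1 := LinearMap.BilinForm.finrank_orthogonal (BB_nd D) S
  rw [fr_Hr] at h1
  have h2 : Nat.card S = 2 ^ Module.finrank (ZMod 2) S := by
    rw [Module.natCard_eq_pow_finrank (K := ZMod 2), Nat.card_zmod]
  have h3 : Nat.card S = Nat.card D.W := rfl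
  have h4 : 2 * r ≤ Module.finrank (ZMod 2) S := by
    have : 2 ^ (2 * r) ≤ 2 ^ Module.finrank (ZMod 2) S := by
      rw [← h2, h3, pow_mul]
      exact hc
    exact (Nat.pow_le_pow_iff_right (by norm_num)).1 this
  have h5 : S = (BB D).orthogonal S := by
    apply Submodule.eq_of_le_of_finrank_le hSS
    omega
  have h6 : Y ∈ S := by
    rw [h5, mem_orth]
    exact hY
  exact h6

end Pool.Agent.N401.GK.MAXW
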